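import Pool.Agent.H43.G.R_seed8.Y957.VK.Stm
import Pool.Agent.H43.G.R_seed8.W66.PA

set_option autoImplicit false

/-!
Project VK (helper957), job MOB: the smoothed twisted sum of the Moebius function.
-/

open Complex Filter Topology Set MeasureTheory Metric
open scoped Real FourierTransform

namespace Pool.Agent.Y25.VK

open Pool.Agent.H379R2.SW (vert vert_re vert_im vert_ne_zero continuous_vert)
open Pool.Agent.W66 (exp_vert integrable_inv_norm_vert_sq' perron_vert)
open Pool.Agent.Y957.VK (S_INV)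

/-- the Moebius function with complex values -/
noncomputable def Mu : ℕ → ℂ := fun n => ((ArithmeticFunction.moebius n : ℤ) : ℂ)

/-- the smoothed sum -/
noncomputable def RS (τ v : ℝ) : ℂ :=
  ∑' n : ℕ, LSeries.term Mu ⟨0, τ⟩ n * ((max (v - Real.log n) 0 : ℝ) : ℂ)

lemma norm_exp_vert (c ξ u : ℝ) : ‖cexp (vert c ξ * u)‖ = Real.exp (c * u) := by
  rw [exp_vert, norm_mul, Complex.norm_exp_ofReal_mul_I, mul_one, Complex.norm_real,
    Real.norm_of_nonneg (Real.exp_pos _).le]

lemma Mu_summable {s : ℂ} (hs : 1 < s.re) : LSeriesSummable Mu s :=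
  ArithmeticFunction.LSeriesSummable_moebius_iff.2 hs

theorem RS_eq {c : ℝ} (hc : 1 < c) (τ v : ℝ) :
    RS τ v = ∫ ξ : ℝ, LSeries Mu (⟨0, τ⟩ + vert c ξ) *
      (cexp (vert c ξ * v) / (vert c ξ) ^ 2) := by
  have hc0 : 0 < c := by linarith
  have ha : LSeriesSummable Mu (c : ℂ) := Mu_summable (by simpa using hc)
  set F : ℕ → ℝ → ℂ := fun n ξ => LSeries.term Mu (⟨0, τ⟩ + vert c ξ) n *
    (cexp (vert c ξ * v) / (vert c ξ) ^ 2) with hF
  have hterm : ∀ n ξ, F n ξ = LSeries.term Mu ⟨0, τ⟩ n *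
      (cexp (vert c ξ * ((v - Real.log n : ℝ) : ℂ)) / (vert c ξ) ^ 2) := by
    intro n ξ
    simp only [hF]
    rcases Nat.eq_zero_or_pos n with rfl | hn
    · simp
    · rw [LSeries.term_of_ne_zero hn.ne', LSeries.term_of_ne_zero hn.ne']
      have hnc : (n : ℂ) ≠ 0 := by exact_mod_cast hn.ne'
      have h1 : (n : ℂ) ^ ((⟨0, τ⟩ : ℂ) + vert c ξ) = (n : ℂ) ^ (⟨0, τ⟩ : ℂ) *
          cexp (vert c ξ * (Real.log n : ℝ)) := by
        rw [Complex.cpow_add _ _ hnc]
        congr 1
        rw [Complex.cpow_def_of_ne_zero hnc, ← Complex.natCast_log]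
        congr 1
        push_cast
        ring
      have h2 : cexp (vert c ξ * ((v - Real.log n : ℝ) : ℂ)) =
          cexp (vert c ξ * v) / cexp (vert c ξ * (Real.log n : ℝ)) := by
        rw [← Complex.exp_sub]
        congr 1
        push_cast
        ring
      rw [h1, h2]
      have h3 : (n : ℂ) ^ (⟨0, τ⟩ : ℂ) ≠ 0 := by
        rw [Complex.cpow_def_of_ne_zero hnc]; exact Complex.exp_ne_zero _
      have h4 := Complex.exp_ne_zero (vert c ξ * (Real.log n : ℝ))
      have h5 := vert_ne_zero hc0 ξ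
      field_simp
  have hnorm : ∀ n ξ, ‖F n ξ‖ = ‖LSeries.term Mu (c : ℂ) n‖ *
      (Real.exp (c * v) * (‖vert c ξ‖ ^ 2)⁻¹) := by
    intro n ξ
    simp only [hF]
    rw [norm_mul, norm_div, norm_exp_vert, norm_pow, div_eq_mul_inv]
    congr 1
    rw [LSeries.norm_term_eq, LSeries.norm_term_eq]
    congr 2
    simp [vert_re]
  have hkint := integrable_inv_norm_vert_sq' hc0
  have hFint : ∀ n, Integrable (F n) := by
    intro n
    refine Integrable.mono' ((hkint.const_mul (Real.exp (c * v))).const_mul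
      ‖LSeries.term Mu (c : ℂ) n‖) ?_ ?_
    · apply Continuous.aestronglyMeasurable
      have : F n = fun ξ => LSeries.term Mu ⟨0, τ⟩ n *
        (cexp (vert c ξ * ((v - Real.log n : ℝ) : ℂ)) / (vert c ξ) ^ 2) :=
        funext (hterm n)
      rw [this]
      have h1 := continuous_vert c
      exact continuous_const.mul (Continuous.div (by fun_prop) (h1.pow 2)
        (fun ξ => pow_ne_zero 2 (vert_ne_zero hc0 ξ)))
    · exact Eventually.of_forall (fun ξ => (hnorm n ξ).le)
  have hFsum : Summable (fun n => ∫ ξ, ‖F n ξ‖) := by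
    simp only [hnorm, integral_const_mul]
    exact ha.norm.mul_right _
  have hmain := hasSum_integral_of_summable_integral_norm hFint hFsum
  have hI : ∀ n, ∫ ξ, F n ξ = LSeries.term Mu ⟨0, τ⟩ n * ((max (v - Real.log n) 0 : ℝ) : ℂ) := by
    intro n
    have h1 : ∫ ξ, F n ξ = LSeries.term Mu ⟨0, τ⟩ n *
        ∫ ξ : ℝ, (cexp (vert c ξ * ((v - Real.log n : ℝ) : ℂ)) / (vert c ξ) ^ 2) := by
      simp only [hterm]
      rw [integral_const_mul]
    rw [h1, perron_vert hc0]
  simp only [hI] at hmain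
  unfold RS
  rw [hmain.tsum_eq]
  congr 1
  ext ξ
  simp only [hF]
  rw [tsum_mul_right]
  rfl

/-- the inverse of the zeta function -/
noncomputable def MM (w : ℂ) : ℂ := (w - 1) / riemannZeta₁ w

lemma LSeries_Mu {w : ℂ} (hw : 1 < w.re) : LSeries Mu w = MM w ∧ riemannZeta₁ w ≠ 0 := by
  have hne : w ≠ 1 := by
    intro h
    rw [h] at hw
    simp at hw
  have h1 : LSeries (fun n => ((ArithmeticFunction.zeta n : ℕ) : ℂ)) w * LSeries Mu w = 1 :=
    ArithmeticFunction.LSeries_zeta_mul_Lseries_moebius hw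
  have h2 : LSeries (fun n => ((ArithmeticFunction.zeta n : ℕ) : ℂ)) w = riemannZeta w :=
    ArithmeticFunction.LSeries_zeta_eq_riemannZeta hw
  rw [h2, riemannZeta_eq_inv_sub_mul hne] at h1
  have h3 : w - 1 ≠ 0 := sub_ne_zero.2 hne
  have h4 : riemannZeta₁ w ≠ 0 := by
    intro h
    rw [h, mul_zero, zero_mul] at h1
    exact zero_ne_one h1
  refine ⟨?_, h4⟩
  unfold MM
  rw [eq_div_iff h4]
  field_simp at h1
  linear_combination h1

lemma norm_Mu_le {w : ℂ} (hw : 1 < w.re) : ‖LSeries Mu w‖ ≤ 1 + 1 / (w.re - 1) := by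
  set c := w.re with hc
  have h0 := ZetaAsymptotics.zeta_limit_aux1 hw
  have h1 : ∀ n, ‖LSeries.term Mu w n‖ ≤ if n = 0 then 0 else 1 / (n : ℝ) ^ c := by
    intro n
    rw [LSeries.norm_term_eq]
    split_ifs with h
    · exact le_rfl
    · apply div_le_div_of_nonneg_right _ (by positivity)
      unfold Mu
      rw [← Complex.ofReal_intCast, Complex.norm_real, Real.norm_eq_abs]
      exact_mod_cast ArithmeticFunction.abs_moebius_le_one
  have h2 : Summable (fun n : ℕ => 1 / ((n : ℝ) + 1) ^ c) := by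
    have h3 := (Real.summable_one_div_nat_rpow.2 hw)
    have h4 := (summable_nat_add_iff 1).2 h3
    simpa using h4
  have h3 : HasSum (fun n : ℕ => if n = 0 then 0 else 1 / (n : ℝ) ^ c)
      (∑' n : ℕ, 1 / ((n : ℝ) + 1) ^ c) := by
    rw [← hasSum_nat_add_iff' 1]
    simpa using h2.hasSum
  have h4 : ‖LSeries Mu w‖ ≤ ∑' n : ℕ, 1 / ((n : ℝ) + 1) ^ c := by
    unfold LSeries
    exact tsum_of_norm_bounded h3 h1
  have h5 : 0 ≤ ZetaAsymptotics.termTSum c := tsum_nonneg fun n => ZetaAsymptotics.term_nonneg _ _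
  have h6 : 0 ≤ c * ZetaAsymptotics.termTSum c := by positivity
  linarith

end Pool.Agent.Y25.VK
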