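import Pool.Agent.H43.G.R_seed8.Y25.VK.MobA

set_option autoImplicit false

/-!
Project VK (helper957), job MOB: the contour shift.
-/

open Complex Filter Topology Set MeasureTheory Metric
open scoped Real FourierTransform

namespace Pool.Agent.Y25.VK

open Pool.Agent.H379R2.SW (vert vert_re vert_im vert_ne_zero continuous_vert)
open Pool.Agent.Y957.VK (S_INV)

lemma tail_arctan {R : ℝ} (hR : 1 ≤ R) : π - 2 * Real.arctan R ≤ 2 / R := by
  have hR0 : 0 < R := by linarith
  have h1 := Real.arctan_inv_of_pos hR0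
  have h2 : Real.arctan R⁻¹ ≤ R⁻¹ := by
    have h3 : 0 ≤ Real.arctan R⁻¹ := by
      rw [Real.arctan_nonneg]; positivity
    have h4 := Real.lt_tan (x := Real.arctan R⁻¹) (by
      rw [Real.arctan_pos]; positivity) (Real.arctan_lt_pi_div_two _)
    rw [Real.tan_arctan] at h4
    exact h4.le
  rw [h1] at h2
  have : 2 / R = 2 * R⁻¹ := by ring
  rw [this]
  linarith

theorem RS_bound (hinv : S_INV) : ∃ δ K T₀ : ℝ, 0 < δ ∧ δ < 1 ∧ 1 ≤ K ∧ 3 ≤ T₀ ∧
    ∀ τ v R T : ℝ, 1 ≤ v → 1 ≤ R → T₀ ≤ T → |τ| + R ≤ T →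
    ‖RS τ v‖ ≤ 48 * Real.exp v * ((Real.log T) ^ K *
      Real.exp (-((Real.log T) ^ (δ - 1) / 2 * v)) + (Real.log T) ^ K / R ^ 2 + v / R) := by
  obtain ⟨δ, K, T₀, hδ, hδ1, hK, hT₀, hI⟩ := hinv
  refine ⟨δ, K, T₀, hδ, hδ1, hK, hT₀, fun τ v R T hv hR hT hτT => ?_⟩
  have hT3 : 3 ≤ T := hT₀.trans hT
  have hlT : 1 ≤ Real.log T := by
    rw [Real.le_log_iff_exp_le (by linarith)]
    linarith [Real.exp_one_lt_d9]
  set H := (Real.log T) ^ K with hH
  have hH0 : 0 < H := Real.rpow_pos_of_pos (by linarith) _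
  set w := (Real.log T) ^ (δ - 1) / 2 with hw
  have hw0 : 0 < w := by
    have : 0 < (Real.log T) ^ (δ - 1) := Real.rpow_pos_of_pos (by linarith) _
    positivity
  have hw1 : w ≤ 1 / 2 := by
    have : (Real.log T) ^ (δ - 1) ≤ 1 := Real.rpow_le_one_of_one_le_of_nonpos hlT (by linarith)
    linarith
  have hv0 : 0 < v := by linarith
  have hR0 : 0 < R := by linarith
  set c1 : ℝ := 1 + 1 / v with hc1
  have hiv : 0 < 1 / v := by positivity
  have hiv1 : 1 / v ≤ 1 := by rw [div_le_one hv0]; exact hv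
  have hc10 : 1 < c1 := by linarith
  have hc12 : c1 ≤ 2 := by linarith
  set b0 : ℝ := 1 - w with hb0
  have hb0' : 1 / 2 ≤ b0 := by linarith
  set G : ℂ → ℂ := fun s => MM (⟨0, τ⟩ + s) * (cexp (s * v) / s ^ 2) with hG
  have he1 : Real.exp 1 ≤ 3 := by linarith [Real.exp_one_lt_d9]
  have hev0 := Real.exp_pos v
  have hec : Real.exp (c1 * v) ≤ 3 * Real.exp v := by
    have h1 : c1 * v = 1 + v := by rw [hc1]; field_simp; ring
    rw [h1, Real.exp_add]
    gcongr
  -- lower bound for the square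
  have hsq : ∀ s : ℂ, 1 / 2 ≤ s.re → (1 + s.im ^ 2) / 4 ≤ ‖s ^ 2‖ := by
    intro s hs
    rw [norm_pow, Complex.sq_norm, Complex.normSq_apply]
    nlinarith [sq_nonneg s.im]
  -- on the rectangle
  have hrect : ∀ s : ℂ, b0 ≤ s.re → s.re ≤ c1 → |s.im| ≤ R → riemannZeta₁ (⟨0, τ⟩ + s) ≠ 0 ∧
      ‖G s‖ ≤ 4 * H * (1 + s.im ^ 2)⁻¹ * Real.exp (s.re * v) := by
    intro s h1 h2 h3
    have him : ((⟨0, τ⟩ : ℂ) + s).im = τ + s.im := by simp
    have hre : ((⟨0, τ⟩ : ℂ) + s).re = s.re := by simp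
    obtain ⟨k1, k2⟩ := hI T (⟨0, τ⟩ + s) hT (by
      rw [him]
      exact (abs_add_le _ _).trans (by linarith)) (by
      rw [hre]
      linarith) (by rw [hre]; linarith)
    refine ⟨k1, ?_⟩
    simp only [hG]
    rw [norm_mul, norm_div, Complex.norm_exp, Complex.re_mul_ofReal]
    have h4 := hsq s (by linarith)
    have h5 : 0 < 1 + s.im ^ 2 := by positivity
    have h6 : Real.exp (s.re * v) / ‖s ^ 2‖ ≤ Real.exp (s.re * v) / ((1 + s.im ^ 2) / 4) :=
      div_le_div_of_nonneg_left (Real.exp_pos _).le (by positivity) h4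
    calc ‖MM (⟨0, τ⟩ + s)‖ * (Real.exp (s.re * v) / ‖s ^ 2‖) ≤
        H * (Real.exp (s.re * v) / ((1 + s.im ^ 2) / 4)) :=
          mul_le_mul k2 h6 (by positivity) hH0.le
      _ = _ := by field_simp
  have hGd : ∀ s : ℂ, riemannZeta₁ (⟨0, τ⟩ + s) ≠ 0 → s ≠ 0 → DifferentiableAt ℂ G s := by
    intro s hs hs0
    have h2 : DifferentiableAt ℂ (fun z : ℂ => (⟨0, τ⟩ : ℂ) + z) s := by fun_prop
    have h3 : DifferentiableAt ℂ (fun z : ℂ => riemannZeta₁ ((⟨0, τ⟩ : ℂ) + z)) s :=
      DifferentiableAt.comp (g := riemannZeta₁) (f := fun z : ℂ => (⟨0, τ⟩ : ℂ) + z) s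
        (differentiable_riemannZeta₁ _) h2
    have h4 : DifferentiableAt ℂ (fun z : ℂ => MM ((⟨0, τ⟩ : ℂ) + z)) s := by
      unfold MM
      exact (h2.sub_const 1).div h3 hs
    exact h4.mul (DifferentiableAt.div (by fun_prop) (by fun_prop) (pow_ne_zero 2 hs0))
  -- the line integral as an integral over `t`
  have hline : RS τ v = ((2 * π)⁻¹ : ℝ) • ∫ t : ℝ, G (c1 + t * I) := by
    rw [RS_eq hc10]
    have h1 : ∀ ξ : ℝ, LSeries Mu (⟨0, τ⟩ + vert c1 ξ) *
        (cexp (vert c1 ξ * v) / (vert c1 ξ) ^ 2) = (fun t : ℝ => G (c1 + t * I)) (2 * π * ξ) := by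
      intro ξ
      rw [(LSeries_Mu (by simp [vert_re]; exact hc10)).1]
      simp only [hG, vert]
    simp only [h1]
    rw [MeasureTheory.Measure.integral_comp_mul_left (fun t : ℝ => G (c1 + t * I)) (2 * π),
      abs_of_pos (by positivity)]
  -- bound on the whole line
  have hGline : ∀ t : ℝ, ‖G (c1 + t * I)‖ ≤ (6 * v * Real.exp v) * (1 + t ^ 2)⁻¹ := by
    intro t
    have hre : ((⟨0, τ⟩ : ℂ) + (c1 + t * I)).re = c1 := by simp
    have hre2 : ((c1 : ℂ) + t * I).re = c1 := by simp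
    have him2 : ((c1 : ℂ) + t * I).im = t := by simp
    have h0 : 1 < ((⟨0, τ⟩ : ℂ) + (c1 + t * I)).re := by rw [hre]; exact hc10
    have h1 := norm_Mu_le h0
    rw [hre, (LSeries_Mu h0).1] at h1
    have h2 : 1 + 1 / (c1 - 1) ≤ 2 * v := by
      have : c1 - 1 = 1 / v := by rw [hc1]; ring
      rw [this, one_div_one_div]
      linarith
    simp only [hG]
    rw [norm_mul, norm_div, Complex.norm_exp, Complex.re_mul_ofReal, hre2]
    have h3 : 1 + t ^ 2 ≤ ‖((c1 : ℂ) + t * I) ^ 2‖ := by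
      rw [norm_pow, Complex.sq_norm, Complex.normSq_apply, hre2, him2]
      nlinarith
    have h4 : 0 < 1 + t ^ 2 := by positivity
    calc ‖MM (⟨0, τ⟩ + (c1 + t * I))‖ * (Real.exp (c1 * v) / ‖((c1 : ℂ) + t * I) ^ 2‖) ≤
        (2 * v) * (3 * Real.exp v / (1 + t ^ 2)) :=
          mul_le_mul (h1.trans h2) (div_le_div₀ (by positivity) hec h4 h3) (by positivity)
            (by positivity)
      _ = _ := by rw [div_eq_mul_inv]; ring
  have hGcont : Continuous fun t : ℝ => G (c1 + t * I) := by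
    rw [continuous_iff_continuousAt]
    intro t
    have hre2 : ((c1 : ℂ) + t * I).re = c1 := by simp
    have h1 : riemannZeta₁ (⟨0, τ⟩ + (c1 + t * I)) ≠ 0 :=
      (LSeries_Mu (by rw [Complex.add_re, hre2]; simpa using hc10)).2
    have h2 : ContinuousAt (fun t : ℝ => (c1 : ℂ) + t * I) t := by fun_prop
    have h3 : (c1 : ℂ) + t * I ≠ 0 := by
      intro h
      rw [h] at hre2
      simp at hre2
      linarith
    exact ContinuousAt.comp (g := G) (f := fun t : ℝ => (c1 : ℂ) + t * I)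
      (hGd _ h1 h3).continuousAt h2
  have hGint : Integrable fun t : ℝ => G (c1 + t * I) :=
    (integrable_inv_one_add_sq.const_mul (6 * v * Real.exp v)).mono' hGcont.aestronglyMeasurable
      (Eventually.of_forall hGline)
  -- the tail
  have htail : ‖∫ t in (Set.Ioc (-R) R)ᶜ, G (c1 + t * I)‖ ≤ (6 * v * Real.exp v) * (2 / R) := by
    have h1 : ‖∫ t in (Set.Ioc (-R) R)ᶜ, G (c1 + t * I)‖ ≤
        ∫ t in (Set.Ioc (-R) R)ᶜ, (6 * v * Real.exp v) * (1 + t ^ 2)⁻¹ :=
      norm_integral_le_of_norm_le (integrable_inv_one_add_sq.const_mul _).integrableOn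
        (Eventually.of_forall fun t => hGline t)
    refine h1.trans ?_
    rw [integral_const_mul]
    apply mul_le_mul_of_nonneg_left _ (by positivity)
    have h2 := integral_add_compl (measurableSet_Ioc (a := -R) (b := R)) integrable_inv_one_add_sq
      (μ := volume)
    rw [integral_univ_inv_one_add_sq, ← intervalIntegral.integral_of_le (by linarith),
      integral_inv_one_add_sq, Real.arctan_neg] at h2
    have h3 := tail_arctan hR
    linarith
  -- the rectangle
  have hcauchy := Complex.integral_boundary_rect_eq_zero_of_differentiableOn G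
    (⟨b0, -R⟩ : ℂ) (⟨c1, R⟩ : ℂ) (by
      intro s hs
      rw [Complex.mem_reProdIm] at hs
      simp only at hs
      rw [uIcc_of_le (by linarith), uIcc_of_le (by linarith)] at hs
      have hs0 : s ≠ 0 := by
        intro h
        rw [h] at hs
        have := hs.1.1
        simp at this
        linarith
      exact (hGd s (hrect s hs.1.1 hs.1.2 (abs_le.2 hs.2)).1 hs0).differentiableWithinAt)
  simp only at hcauchy
  have hhor : ∀ r : ℝ, |r| = R → ‖∫ x : ℝ in b0..c1, G (x + ((r : ℝ) : ℂ) * I)‖ ≤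
      24 * H * Real.exp v / R ^ 2 := by
    intro r hr
    have h1 : ∀ x ∈ Set.uIoc b0 c1, ‖G (x + ((r : ℝ) : ℂ) * I)‖ ≤
        12 * H * Real.exp v / R ^ 2 := by
      intro x hx
      rw [uIoc_of_le (by linarith)] at hx
      have hre : ((x : ℂ) + ((r : ℝ) : ℂ) * I).re = x := by simp
      have him : ((x : ℂ) + ((r : ℝ) : ℂ) * I).im = r := by simp
      have h2 := (hrect ((x : ℂ) + ((r : ℝ) : ℂ) * I) (by rw [hre]; exact hx.1.le)
        (by rw [hre]; exact hx.2) (by rw [him, hr])).2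
      rw [hre, him] at h2
      refine h2.trans ?_
      have h3 : Real.exp (x * v) ≤ 3 * Real.exp v :=
        (Real.exp_le_exp.2 (mul_le_mul_of_nonneg_right hx.2 hv0.le)).trans hec
      have h4 : (1 + r ^ 2)⁻¹ ≤ (R ^ 2)⁻¹ := by
        apply inv_anti₀ (by positivity)
        rw [← hr, sq_abs]
        linarith
      calc 4 * H * (1 + r ^ 2)⁻¹ * Real.exp (x * v) ≤ 4 * H * (R ^ 2)⁻¹ * (3 * Real.exp v) := by
            gcongr
        _ = _ := by rw [div_eq_mul_inv]; ring
    refine (intervalIntegral.norm_integral_le_of_norm_le_const h1).trans ?_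
    have h5 : |c1 - b0| ≤ 2 := by
      rw [abs_of_pos (by linarith)]
      linarith
    calc _ ≤ 12 * H * Real.exp v / R ^ 2 * 2 := by
          apply mul_le_mul_of_nonneg_left h5 (by positivity)
      _ = _ := by ring
  have hbot := hhor (-R) (by rw [abs_neg, abs_of_pos hR0])
  have htop := hhor R (abs_of_pos hR0)
  have hleft : ‖∫ y : ℝ in (-R)..R, G (((b0 : ℝ) : ℂ) + y * I)‖ ≤
      16 * H * (Real.exp v * Real.exp (-(w * v))) := by
    have h1 : ∀ y ∈ Set.Ioc (-R) R, ‖G (((b0 : ℝ) : ℂ) + y * I)‖ ≤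
        4 * H * (Real.exp v * Real.exp (-(w * v))) * (1 + y ^ 2)⁻¹ := by
      intro y hy
      have hre : (((b0 : ℝ) : ℂ) + y * I).re = b0 := by simp
      have him : (((b0 : ℝ) : ℂ) + y * I).im = y := by simp
      have h2 := (hrect (((b0 : ℝ) : ℂ) + y * I) (by rw [hre])
        (by rw [hre]; linarith) (by rw [him]; exact abs_le.2 ⟨hy.1.le, hy.2⟩)).2
      rw [hre, him] at h2
      refine h2.trans (le_of_eq ?_)
      have h3 : b0 * v = v + -(w * v) := by rw [hb0]; ring
      rw [h3, Real.exp_add]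
      ring
    have h2 := intervalIntegral.norm_integral_le_of_norm_le (μ := volume) (a := -R) (b := R)
      (f := fun y : ℝ => G (((b0 : ℝ) : ℂ) + y * I))
      (g := fun y => 4 * H * (Real.exp v * Real.exp (-(w * v))) * (1 + y ^ 2)⁻¹)
      (by linarith) (Eventually.of_forall h1)
      ((integrable_inv_one_add_sq.const_mul _).intervalIntegrable)
    refine h2.trans ?_
    rw [intervalIntegral.integral_const_mul, integral_inv_one_add_sq]
    have h3 := Real.arctan_lt_pi_div_two R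
    have h4 := Real.neg_pi_div_two_lt_arctan (-R)
    have h5 := Real.pi_lt_four
    calc 4 * H * (Real.exp v * Real.exp (-(w * v))) * (Real.arctan R - Real.arctan (-R)) ≤
        4 * H * (Real.exp v * Real.exp (-(w * v))) * 4 := by
          apply mul_le_mul_of_nonneg_left _ (by positivity)
          linarith
      _ = _ := by ring
  have hmid : ‖∫ y : ℝ in (-R)..R, G ((c1 : ℂ) + y * I)‖ ≤
      16 * H * (Real.exp v * Real.exp (-(w * v))) + 2 * (24 * H * Real.exp v / R ^ 2) := by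
    have h1 : I • ∫ y : ℝ in (-R)..R, G ((c1 : ℂ) + y * I) =
        I • (∫ y : ℝ in (-R)..R, G (((b0 : ℝ) : ℂ) + y * I)) -
        (∫ x : ℝ in b0..c1, G (x + ((-R : ℝ) : ℂ) * I)) +
        ∫ x : ℝ in b0..c1, G (x + ((R : ℝ) : ℂ) * I) := by
      linear_combination hcauchy
    have h2 : ‖∫ y : ℝ in (-R)..R, G ((c1 : ℂ) + y * I)‖ =
        ‖I • ∫ y : ℝ in (-R)..R, G ((c1 : ℂ) + y * I)‖ := by
      rw [norm_smul, Complex.norm_I, one_mul]
    rw [h2, h1]
    refine (norm_add_le _ _).trans ?_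
    have h3 := norm_sub_le (I • (∫ y : ℝ in (-R)..R, G (((b0 : ℝ) : ℂ) + y * I)))
      (∫ x : ℝ in b0..c1, G (x + ((-R : ℝ) : ℂ) * I))
    rw [norm_smul, Complex.norm_I, one_mul] at h3
    linarith
  rw [hline, norm_smul, Real.norm_of_nonneg (by positivity)]
  have htot : ‖∫ t : ℝ, G (c1 + t * I)‖ ≤ (16 * H * (Real.exp v * Real.exp (-(w * v))) +
      2 * (24 * H * Real.exp v / R ^ 2)) + (6 * v * Real.exp v) * (2 / R) := by
    rw [← integral_add_compl (measurableSet_Ioc (a := -R) (b := R)) hGint,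
      ← intervalIntegral.integral_of_le (by linarith)]
    exact (norm_add_le _ _).trans (add_le_add hmid htail)
  have hpi : (2 * π)⁻¹ ≤ 1 := by
    apply inv_le_one_of_one_le₀
    have := Real.pi_gt_three
    linarith
  calc (2 * π)⁻¹ * ‖∫ t : ℝ, G (c1 + t * I)‖ ≤ 1 * ‖∫ t : ℝ, G (c1 + t * I)‖ :=
        mul_le_mul_of_nonneg_right hpi (norm_nonneg _)
    _ ≤ (16 * H * (Real.exp v * Real.exp (-(w * v))) +
      2 * (24 * H * Real.exp v / R ^ 2)) + (6 * v * Real.exp v) * (2 / R) := by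
        rw [one_mul]; exact htot
    _ = 16 * (Real.exp v * (H * Real.exp (-(w * v)))) + 48 * (Real.exp v * (H / R ^ 2)) +
        12 * (Real.exp v * (v / R)) := by ring
    _ ≤ 48 * (Real.exp v * (H * Real.exp (-(w * v)))) + 48 * (Real.exp v * (H / R ^ 2)) +
        48 * (Real.exp v * (v / R)) := by
        have p1 : 0 ≤ Real.exp v * (H * Real.exp (-(w * v))) := by positivity
        have p3 : 0 ≤ Real.exp v * (v / R) := by positivity
        linarith
    _ = _ := by ring

end Pool.Agent.Y25.VK
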